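import Pool.Agent.H889R3.SA.Stmts

set_option autoImplicit false

namespace Pool.Agent.H889R3.SA

open Finset Pool.Agent.H572R2 Pool.Agent.H572R4.QA

variable {N : ℕ}

lemma hh_succ (n m : ℕ) : hh (n + 1) (m + 1) = 1 / ((n : ℝ) + 1) + hh n m := by
  unfold hh
  rw [Finset.sum_range_succ']
  rw [add_comm]
  congr 1
  · push_cast; simp
  · refine Finset.sum_congr rfl fun i _ => ?_
    push_cast
    congr 1
    ring

lemma hh_nonneg (n m : ℕ) (h : m ≤ n) : 0 ≤ hh n m := by
  unfold hh
  refine Finset.sum_nonneg fun i hi => ?_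
  have : (i : ℝ) < n := by exact_mod_cast (Finset.mem_range.1 hi).trans_le h
  have : (0 : ℝ) < n - i := by linarith
  positivity

lemma cc_zero (n t : ℕ) (ht : 1 ≤ t) : cc n 0 t = 0 := by
  unfold cc
  exact Finset.prod_eq_zero (Finset.mem_range.2 ht) (by simp)

lemma GG_zero (n : ℕ) (A : Finset (Fin N)) (f : (Fin N → Bool) → ℝ) : GG n 0 A f = 0 := by
  unfold GG
  refine Finset.sum_eq_zero fun T _ => ?_
  split_ifs with h
  · rw [cc_zero n _ (Finset.card_pos.2 h.1), zero_mul]
  · rfl

lemma Phi3_nonneg {f : (Fin N → Bool) → ℝ} {w : Fin N → (Fin N → Bool) → ℝ}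
    (γ ε : ℝ) (T : ℕ) (ca m0 K S cr s : ℝ) (hε : 0 ≤ ε) (hγ : 0 ≤ γ) (hca : 0 < ca) (hm0 : 0 < m0)
    (hw : ∀ i x, 0 ≤ w i x) (hcr : 0 ≤ cr) (hs : s ≤ S) (A : Finset (Fin N)) :
    0 ≤ Phi3 γ ε T ca m0 K S cr s f w A := by
  unfold Phi3
  have hY : 0 ≤ Yh γ ε T f A := by
    unfold Yh
    refine Finset.sum_nonneg (fun t _ => mul_nonneg (by positivity) ?_)
    exact Finset.sum_nonneg (fun i _ => sq_nonneg _)
  have hW : 0 ≤ ∑ i ∈ A, EE (w i) := Finset.sum_nonneg (fun i _ => EE_nonneg (hw i))
  have hD : 0 ≤ ∑ i ∈ A, EE (dd f i) :=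
    Finset.sum_nonneg (fun i _ => EE_nonneg fun x => abs_nonneg _)
  have hth : 0 ≤ th γ ε T := by unfold th; positivity
  have h1 : 0 ≤ 1 / (4 * ca * (m0 * Real.exp ((5 + 4 * Real.log K) * s))) * Yh γ ε T f A :=
    mul_nonneg (by positivity) hY
  have h2 : 0 ≤ cr * (S - s) := mul_nonneg hcr (by linarith)
  have h3 : 0 ≤ ca * ∑ i ∈ A, EE (w i) := mul_nonneg hca.le hW
  have h4 : 0 ≤ th γ ε T / 4 * ∑ i ∈ A, EE (dd f i) := mul_nonneg (by positivity) hD
  linarith

lemma GG_erase (hA1 : TaskA1) (hB3 : TaskB3) (n m : ℕ) (hmn : m ≤ n) (A : Finset (Fin N))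
    (hcard : A.card ≤ n) (f : (Fin N → Bool) → ℝ) (i : Fin N) :
    GG n m A f ≤ GG n m (A.erase i) f + inf1 f i := by
  rw [(hB3 N f).1 i]
  unfold GG
  rw [← Finset.sum_add_distrib]
  refine Finset.sum_le_sum fun T _ => ?_
  by_cases hT : T.Nonempty ∧ T ⊆ A
  · rw [if_pos hT]
    have hc := hA1 n m T.card hmn ((Finset.card_le_card hT.2).trans hcard)
    have hf := sq_nonneg (fh f T)
    by_cases hi : i ∈ T
    · rw [if_neg, if_pos hi, zero_add]
      · exact mul_le_of_le_one_left hf hc.2
      · rintro ⟨_, h2⟩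
        exact absurd (h2 hi) (Finset.notMem_erase i A)
    · rw [if_pos, if_neg hi, add_zero]
      exact ⟨hT.1, fun x hx => Finset.mem_erase.2 ⟨fun h => hi (h ▸ hx), hT.2 hx⟩⟩
  · rw [if_neg hT]
    rw [if_neg (fun h => hT ⟨h.1, h.2.trans (Finset.erase_subset _ _)⟩)]
    split_ifs
    · rw [zero_add]; exact sq_nonneg _
    · simp

lemma fh_singleton (hB1 : TaskB1) (f : (Fin N → Bool) → ℝ) (j : Fin N) :
    fh f {j} ^ 2 ≤ EE (dd f j) ^ 2 / 4 := by
  have h := hB1 N f j ∅ (Finset.notMem_empty j)
  have e : ∀ g : (Fin N → Bool) → ℝ, fh g ∅ = EE g := by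
    intro g
    unfold fh
    apply EE_congr
    intro x
    simp
  rw [e, e, e] at h
  have e2 : insert j (∅ : Finset (Fin N)) = {j} := by simp
  rw [e2] at h
  have h3 : EE (rs j true f) - EE (rs j false f) = 2 * fh f {j} := by linarith [h.1, h.2]
  have h4 := mean_diff f j
  rw [h3, abs_mul, abs_of_pos (by norm_num : (0 : ℝ) < 2)] at h4
  have h5 := pow_le_pow_left₀ (by positivity) h4 2
  rw [mul_pow, sq_abs] at h5
  linarith

theorem taskF (hA1 : TaskA1) (hB1 : TaskB1) (hB3 : TaskB3) (hC : TaskC) (hD : TaskD)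
    (hE : TaskE) : TaskF := by
  intro N γ ε k s₀ hε hk hs₀ hγ T hT ca m0 K S cr hca hm0 hK hsmall hcr
  have hth : 0 < th γ ε T := by
    unfold th
    positivity
  have hK0 : 0 < K := by linarith
  have hcr0 : 0 ≤ cr := by
    refine le_trans ?_ hcr
    positivity
  intro n
  induction n with
  | zero =>
    intro m A hm hA s hs hsS f w H
    obtain rfl : m = 0 := by omega
    rw [GG_zero]
    have h0 : hh 0 0 = 0 := by simp [hh]
    exact Phi3_nonneg γ ε T ca m0 K S cr s hε.le hγ.le hca hm0 H.w0 hcr0 (by linarith) A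
  | succ n ihn =>
    intro m A hm hA s hs hsS f w H
    -- inner induction on the cardinality
    obtain ⟨a, ha⟩ : ∃ a, a = A.card := ⟨_, rfl⟩
    induction a generalizing A with
    | zero =>
      have hA0 : A = ∅ := Finset.card_eq_zero.1 ha.symm
      subst hA0
      have : GG (n + 1) m (∅ : Finset (Fin N)) f = 0 := by
        unfold GG
        refine Finset.sum_eq_zero fun T _ => ?_
        rw [if_neg]
        rintro ⟨h1, h2⟩
        obtain ⟨x, hx⟩ := h1
        exact absurd (h2 hx) (Finset.notMem_empty x)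
      rw [this]
      have := hh_nonneg (n + 1) m hm
      exact Phi3_nonneg γ ε T ca m0 K S cr s hε.le hγ.le hca hm0 H.w0 hcr0 (by linarith) _
    | succ a iha =>
      by_cases hex : ∃ i ∈ A, m0 * Real.exp ((5 + 4 * Real.log K) * s) < EE (w i)
      · obtain ⟨i, hi, hai⟩ := hex
        have hc : (A.erase i).card = a := by rw [Finset.card_erase_of_mem hi]; omega
        have h1 := iha (A.erase i) (by omega) hc.symm
        have h2 := hD N f w γ ε T ca m0 K S cr s A i hT hca hm0 H.w0 hi hai
        have h3 := GG_erase hA1 hB3 (n + 1) m hm A hA f i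
        have h4 := inf1_le H (th γ ε T) hth i
        have h5 : 0 ≤ pp f (th γ ε T) i := (pp_facts f i).1 _
        linarith
      · push Not at hex
        rcases m with _ | m
        · rw [GG_zero]
          have := hh_nonneg (n + 1) 0 hm
          exact Phi3_nonneg γ ε T ca m0 K S cr s hε.le hγ.le hca hm0 H.w0 hcr0 (by linarith) _
        · have hn1 : (0 : ℝ) < (n : ℝ) + 1 := by positivity
          have hmn : m ≤ n := by omega
          rw [hh_succ] at hsS
          have hh0 := hh_nonneg n m hmn
          have hrec := hC N f n m A hmn hA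
          have hrev := hE N f w ε k s₀ H hε hk hs₀ γ hγ T hT ca m0 K S cr s hca hm0 hK hs n
            (by linarith) hsmall hcr A hA hex
          have hs' : 0 ≤ s + 1 / ((n : ℝ) + 1) := by positivity
          -- the first term
          have t1 : ((n : ℝ) + 1 - A.card) * GG n m A f
              ≤ ((n : ℝ) + 1 - A.card)
                * Phi3 γ ε T ca m0 K S cr (s + 1 / ((n : ℝ) + 1)) f w A := by
            rcases Nat.lt_or_ge A.card (n + 1) with hlt | hge
            · have h1 := ihn m A hmn (by omega) (s + 1 / ((n : ℝ) + 1)) hs' (by linarith) f w H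
              refine mul_le_mul_of_nonneg_left h1 ?_
              have : (A.card : ℝ) ≤ n := by exact_mod_cast Nat.lt_succ_iff.1 hlt
              linarith
            · have : A.card = n + 1 := le_antisymm hA hge
              rw [this]
              push_cast
              simp
          have t2 : ∑ j ∈ A, ((GG n m (A.erase j) (rs j true f)
                + GG n m (A.erase j) (rs j false f)) / 2 + fh f {j} ^ 2)
              ≤ ∑ j ∈ A, ((Phi3 γ ε T ca m0 K S cr (s + 1 / ((n : ℝ) + 1)) (rs j true f)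
                (fun i => rs j true (w i)) (A.erase j)
            + Phi3 γ ε T ca m0 K S cr (s + 1 / ((n : ℝ) + 1)) (rs j false f)
                (fun i => rs j false (w i)) (A.erase j)) / 2
          + EE (dd f j) ^ 2 / 4) := by
            refine Finset.sum_le_sum fun j hj => ?_
            have hcj : (A.erase j).card ≤ n := by
              rw [Finset.card_erase_of_mem hj]; omega
            have h1 := ihn m (A.erase j) hmn hcj (s + 1 / ((n : ℝ) + 1)) hs' (by linarith)
              (rs j true f) (fun i => rs j true (w i)) (hyp_rs H j true)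
            have h2 := ihn m (A.erase j) hmn hcj (s + 1 / ((n : ℝ) + 1)) hs' (by linarith)
              (rs j false f) (fun i => rs j false (w i)) (hyp_rs H j false)
            have h3 := fh_singleton hB1 f j
            linarith
          rw [div_le_iff₀ hn1] at hrev
          have h5 : ((n : ℝ) + 1) * GG (n + 1) (m + 1) A f
              ≤ ((n : ℝ) + 1) * Phi3 γ ε T ca m0 K S cr s f w A := by
            rw [hrec]
            linarith
          exact le_of_mul_le_mul_left h5 hn1

end Pool.Agent.H889R3.SA
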