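import Pool.Agent.H889R3.SA.Stmts

set_option autoImplicit false

namespace Pool.Agent.H889R3.SA

open Finset

theorem taskH_aux : ∀ (d : ℕ) (V S : ℝ), 1 ≤ d → 0 < V → V ≤ 1 → 1 ≤ S →
  S ≤ 1 + Real.log (4 * d / V) →
    ∃ (γ ε K τ : ℝ) (T : ℕ), 0 < γ ∧ 0 < ε ∧ ε ≤ 1 ∧
      1 ≤ T ∧ 8 * ε * T ≤ γ ∧ 0 < τ ∧ 1 ≤ K ∧
      γ * (4 * (d:ℝ) ^ 2) * S ≤ V / 64 ∧
      (512 * (d:ℝ) ^ 4 / ε) ^ 2 * ((4 * (d:ℝ) ^ 2) / γ) * S
        ≤ ε ^ 2 * (V / 64) ^ 2 * K ∧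
      (1 / 2 : ℝ) ^ T * γ * S ≤ 5 * τ ∧
      4 * ((4 * (d:ℝ) ^ 2) / γ) * τ * Real.exp (5 * S) * Real.exp (4 * Real.log K * S)
        ≤ γ * (V / 64) ∧
      τ = Real.exp (-4977 * (S * Real.log (4 * d / V))) ∧ τ ≤ ε := by
  intro d V S hd hV hV1 hS1 hSle
  have hd1 : (1:ℝ) ≤ d := by exact_mod_cast hd
  obtain ⟨R, hR⟩ : ∃ R : ℝ, R = 4 * d / V := ⟨_, rfl⟩
  have hR4 : 4 ≤ R := by
    rw [hR, le_div_iff₀ hV]; linarith
  have hR0 : 0 < R := by linarith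
  have hVR : V * R = 4 * d := by rw [hR]; field_simp
  obtain ⟨L, hL⟩ : ∃ L : ℝ, L = Real.log R := ⟨_, rfl⟩
  have hLV : Real.log (4 * d / V) = L := by rw [hL, hR]
  rw [hLV] at hSle
  rw [hLV]
  have hexpL : Real.exp L = R := by rw [hL]; exact Real.exp_log hR0
  have hL1 : 1 ≤ L := by
    rw [hL, Real.le_log_iff_exp_le hR0]
    have := Real.exp_one_lt_d9
    linarith
  have hLR : L ≤ R := by
    have := Real.add_one_le_exp L
    rw [hexpL] at this; linarith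
  have hpow : ∀ n : ℕ, R ^ n = Real.exp (n * L) := by
    intro n
    rw [← hexpL, ← Real.exp_nat_mul]
  have hdR : (d:ℝ) ≤ R / 4 := by
    have := mul_le_mul_of_nonneg_right hV1 hR0.le
    linarith
  have hVlo : 4 / R ≤ V := by
    rw [div_le_iff₀ hR0]; rw [hVR]; linarith
  obtain ⟨M, hM⟩ : ∃ M : ℝ, M = S * L := ⟨_, rfl⟩
  rw [← hM]
  have hMlo : L ≤ M := by
    rw [hM]
    calc L = 1 * L := by ring
      _ ≤ S * L := mul_le_mul_of_nonneg_right hS1 (by linarith)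
  have hL2 : 1 ≤ L ^ 2 := one_le_pow₀ hL1
  have hMhi : M ≤ 2 * L ^ 2 := by
    rw [hM]
    calc S * L ≤ (1 + L) * L := mul_le_mul_of_nonneg_right hSle (by linarith)
      _ = L * 1 + L ^ 2 := by ring
      _ ≤ L * L + L ^ 2 := by gcongr
      _ = 2 * L ^ 2 := by ring
  -- T
  obtain ⟨T, hT⟩ : ∃ T : ℕ, T = ⌈2 * 4977 * M⌉₊ := ⟨_, rfl⟩
  have hTlo : 2 * 4977 * M ≤ (T:ℝ) := by rw [hT]; exact Nat.le_ceil _
  have hThi' : (T:ℝ) ≤ 2 * 4977 * M + 1 := by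
    rw [hT]; exact (Nat.ceil_lt_add_one (by linarith)).le
  have hT1r : (1:ℝ) ≤ T := by linarith
  have hT1 : 1 ≤ T := by exact_mod_cast hT1r
  have hL2R : L ^ 2 ≤ R ^ 2 := pow_le_pow_left₀ (by linarith) hLR 2
  have hThi : (T:ℝ) ≤ 19909 * R ^ 2 := by linarith
  have hT0 : (0:ℝ) < T := by linarith
  -- γ, ε
  obtain ⟨γ, hγ⟩ : ∃ γ : ℝ, γ = 1 / R ^ 8 := ⟨_, rfl⟩
  have hγ0 : 0 < γ := by rw [hγ]; positivity
  obtain ⟨ε, hε⟩ : ∃ ε : ℝ, ε = γ / (8 * T) := ⟨_, rfl⟩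
  have hε0 : 0 < ε := by rw [hε]; positivity
  have hR9 : (4:ℝ) ^ 9 ≤ R ^ 9 := pow_le_pow_left₀ (by norm_num) hR4 9
  have hR8 : (4:ℝ) ^ 8 ≤ R ^ 8 := pow_le_pow_left₀ (by norm_num) hR4 8
  have hR2 : (4:ℝ) ^ 2 ≤ R ^ 2 := pow_le_pow_left₀ (by norm_num) hR4 2
  have hR3 : (4:ℝ) ^ 3 ≤ R ^ 3 := pow_le_pow_left₀ (by norm_num) hR4 3
  have hR44 : (4:ℝ) ^ 4 ≤ R ^ 4 := pow_le_pow_left₀ (by norm_num) hR4 4
  have hεlo : 1 / R ^ 19 ≤ ε := by
    rw [hε, hγ, div_div]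
    apply one_div_le_one_div_of_le (by positivity)
    have h1 : R ^ 8 * (8 * (T:ℝ)) ≤ R ^ 8 * (8 * (19909 * R ^ 2)) := by gcongr
    have h2 : R ^ 8 * (8 * (19909 * R ^ 2)) = 159272 * R ^ 10 := by ring
    have h3 : 159272 * R ^ 10 ≤ R ^ 9 * R ^ 10 := by
      apply mul_le_mul_of_nonneg_right _ (by positivity)
      norm_num at hR9
      linarith
    have h4 : R ^ 9 * R ^ 10 = R ^ 19 := by ring
    linarith
  have hε1 : ε ≤ 1 := by
    rw [hε, hγ, div_div, div_le_one (by positivity)]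
    have h8 : 1 ≤ R ^ 8 := one_le_pow₀ (by linarith)
    exact one_le_mul_of_one_le_of_one_le h8 (by linarith)
  have hεT : 8 * ε * T = γ := by rw [hε]; field_simp
  have hs0 : (4 * (d:ℝ) ^ 2) ≤ R ^ 2 / 4 := by
    have h1 := pow_le_pow_left₀ (by linarith : (0:ℝ) ≤ d) hdR 2
    have h2 : (R / 4) ^ 2 = R ^ 2 / 16 := by ring
    rw [h2] at h1
    linarith
  have hs1 : (1:ℝ) ≤ 4 * (d:ℝ) ^ 2 := by
    have := one_le_pow₀ hd1 (n := 2)
    linarith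
  have hsγ : (4 * (d:ℝ) ^ 2) / γ = 4 * (d:ℝ) ^ 2 * R ^ 8 := by
    rw [hγ]; field_simp
  have hsγle : (4 * (d:ℝ) ^ 2) / γ ≤ R ^ 10 / 4 := by
    rw [hsγ]
    have : 4 * (d:ℝ) ^ 2 * R ^ 8 ≤ R ^ 2 / 4 * R ^ 8 := by gcongr
    calc 4 * (d:ℝ) ^ 2 * R ^ 8 ≤ R ^ 2 / 4 * R ^ 8 := this
      _ = R ^ 10 / 4 := by ring
  have hsγ0 : 0 < (4 * (d:ℝ) ^ 2) / γ := by positivity
  have hV64 : 1 / (16 * R) ≤ V / 64 := by
    have : 1 / (16 * R) = (4 / R) / 64 := by field_simp; norm_num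
    rw [this]
    linarith
  have hS0 : 0 ≤ S := by linarith
  have hlogQ1 : S ≤ 13 * R := by linarith
  have hlogQ1' : S ≤ R ^ 3 := by
    have : 13 * R ≤ R ^ 2 * R := by
      apply mul_le_mul_of_nonneg_right _ hR0.le
      norm_num at hR2
      linarith
    calc S ≤ 13 * R := hlogQ1
      _ ≤ R ^ 2 * R := this
      _ = R ^ 3 := by ring
  -- K
  obtain ⟨K, hK⟩ : ∃ K : ℝ, K = R ^ 103 := ⟨_, rfl⟩
  have hK1 : 1 ≤ K := by rw [hK]; exact one_le_pow₀ (by linarith)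
  have hlogK : Real.log K = 103 * L := by
    rw [hK, Real.log_pow, hL]; norm_num
  obtain ⟨τ, hτ⟩ : ∃ τ : ℝ, τ = Real.exp (-4977 * M) := ⟨_, rfl⟩
  have hτ0 : 0 < τ := by rw [hτ]; exact Real.exp_pos _
  refine ⟨γ, ε, K, τ, T, hγ0, hε0, hε1, hT1, hεT.le, hτ0, hK1, ?_, ?_,
    ?_, ?_, hτ, ?_⟩
  · -- h1
    have h1 : γ * (4 * (d:ℝ) ^ 2) * S ≤ (1 / R ^ 8) * (R ^ 2 / 4) * (13 * R) := by
      rw [← hγ]; gcongr
    have h2 : (1 / R ^ 8) * (R ^ 2 / 4) * (13 * R) = 13 / (4 * R ^ 5) := by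
      field_simp
    have h3 : 13 / (4 * R ^ 5) ≤ 1 / (16 * R) := by
      rw [div_le_div_iff₀ (by positivity) (by positivity)]
      have hR4' : (4:ℝ) ^ 4 ≤ R ^ 4 := pow_le_pow_left₀ (by norm_num) hR4 4
      norm_num at hR4'
      have h5 : R ^ 5 = R ^ 4 * R := by ring
      rw [h5]
      have h6 := mul_le_mul_of_nonneg_right hR4' hR0.le
      linarith
    linarith
  · -- h2
    have hd4 : 512 * (d:ℝ) ^ 4 ≤ 2 * R ^ 4 := by
      have : (d:ℝ) ^ 4 ≤ (R / 4) ^ 4 := pow_le_pow_left₀ (by linarith) hdR 4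
      have h2 : (R / 4) ^ 4 = R ^ 4 / 256 := by ring
      rw [h2] at this
      linarith
    have hk : 512 * (d:ℝ) ^ 4 / ε ≤ 2 * R ^ 4 * R ^ 19 := by
      rw [div_le_iff₀ hε0]
      have h1 : 1 ≤ R ^ 19 * ε := by
        have := mul_le_mul_of_nonneg_left hεlo (by positivity : (0:ℝ) ≤ R ^ 19)
        rwa [mul_one_div_cancel (by positivity)] at this
      calc 512 * (d:ℝ) ^ 4 ≤ 2 * R ^ 4 * 1 := by linarith
        _ ≤ 2 * R ^ 4 * (R ^ 19 * ε) := by gcongr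
        _ = 2 * R ^ 4 * R ^ 19 * ε := by ring
    have hk0 : 0 ≤ 512 * (d:ℝ) ^ 4 / ε := by positivity
    have hLHS : (512 * (d:ℝ) ^ 4 / ε) ^ 2 * ((4 * (d:ℝ) ^ 2) / γ) * S
        ≤ (2 * R ^ 4 * R ^ 19) ^ 2 * (R ^ 10 / 4) * R ^ 3 := by
      gcongr
    have hRHS : (1 / R ^ 19) ^ 2 * (1 / (16 * R)) ^ 2 * R ^ 103 ≤ ε ^ 2 * (V / 64) ^ 2 * K := by
      rw [hK]; gcongr
    have hmid : (2 * R ^ 4 * R ^ 19) ^ 2 * (R ^ 10 / 4) * R ^ 3
        ≤ (1 / R ^ 19) ^ 2 * (1 / (16 * R)) ^ 2 * R ^ 103 := by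
      have e1 : (2 * R ^ 4 * R ^ 19) ^ 2 * (R ^ 10 / 4) * R ^ 3 = R ^ 59 := by ring
      have e2 : (1 / R ^ 19) ^ 2 * (1 / (16 * R)) ^ 2 * R ^ 103 = R ^ 63 / 256 := by
        field_simp
        norm_num
      rw [e1, e2, le_div_iff₀ (by norm_num)]
      have : R ^ 63 = R ^ 59 * R ^ 4 := by ring
      rw [this]
      have hR4' : (4:ℝ) ^ 4 ≤ R ^ 4 := pow_le_pow_left₀ (by norm_num) hR4 4
      norm_num at hR4'
      gcongr
    linarith
  · -- h3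
    have hl2 : (1 / 2 : ℝ) ≤ Real.log 2 := by
      have := Real.log_two_gt_d9; linarith
    have hhalf : (1 / 2 : ℝ) ^ T ≤ τ := by
      have e : (1 / 2 : ℝ) ^ T = Real.exp (-(T * Real.log 2)) := by
        rw [Real.exp_neg, ← Real.log_pow, Real.exp_log (by positivity)]
        rw [one_div, inv_pow]
      rw [e, hτ]
      apply Real.exp_le_exp.mpr
      have h5 := mul_le_mul_of_nonneg_left hl2 hT0.le
      linarith
    have h8 : γ * S ≤ 1 := by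
      calc γ * S ≤ (1 / R ^ 8) * R ^ 3 := by rw [← hγ]; gcongr
        _ = 1 / R ^ 5 := by field_simp
        _ ≤ 1 := by
          rw [div_le_one (by positivity)]
          exact one_le_pow₀ (by linarith)
    have h9 : 0 ≤ γ * S := by positivity
    calc (1 / 2 : ℝ) ^ T * γ * S = (1 / 2 : ℝ) ^ T * (γ * S) := by
          ring
      _ ≤ τ * 1 := by gcongr
      _ ≤ 5 * τ := by linarith
  · -- h4
    have hexp : Real.exp (4 * Real.log K * S) = Real.exp (412 * M) := by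
      rw [hlogK, hM]
      congr 1
      ring
    have hexp5 : Real.exp (5 * S) ≤ R ^ 9 := by
      have h1 : Real.exp (5 * S) ≤ Real.exp (5 + 5 * L) :=
        Real.exp_le_exp.mpr (by linarith)
      have h2 : Real.exp (5 + 5 * L) = Real.exp 5 * R ^ 5 := by
        rw [Real.exp_add, hpow 5]; norm_num
      have h3 : Real.exp 5 ≤ R ^ 4 := by
        have h4 : Real.exp 5 = Real.exp 1 ^ 5 := by
          rw [← Real.exp_nat_mul]; norm_num
        have h5 := Real.exp_one_lt_d9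
        have h6 : Real.exp 1 ^ 5 ≤ (3:ℝ) ^ 5 :=
          pow_le_pow_left₀ (Real.exp_pos 1).le (by linarith) 5
        norm_num at hR44 h6
        linarith
      have h4 : R ^ 9 = R ^ 4 * R ^ 5 := by ring
      rw [h4]
      calc Real.exp (5 * S) ≤ Real.exp 5 * R ^ 5 := by rw [← h2]; exact h1
        _ ≤ R ^ 4 * R ^ 5 := by gcongr
    have hLHS : 4 * ((4 * (d:ℝ) ^ 2) / γ) * τ * Real.exp (5 * S) * Real.exp (4 * Real.log K * S)
        ≤ 4 * (R ^ 10 / 4) * τ * R ^ 9 * Real.exp (412 * M) := by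
      rw [hexp]
      gcongr
    have hRHS : (1 / R ^ 8) * (1 / (16 * R)) ≤ γ * (V / 64) := by
      rw [← hγ]; gcongr
    have e1 : 4 * (R ^ 10 / 4) * τ * R ^ 9 * Real.exp (412 * M)
        = R ^ 19 * Real.exp (-4565 * M) := by
      rw [hτ]
      have : Real.exp (-4565 * M) = Real.exp (-4977 * M) * Real.exp (412 * M) := by
        rw [← Real.exp_add]; ring_nf
      rw [this]; ring
    have e2 : R ^ 19 * Real.exp (-4565 * M) ≤ R ^ 19 * (1 / R ^ 81) := by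
      apply mul_le_mul_of_nonneg_left _ (by positivity)
      rw [hpow 81, one_div, ← Real.exp_neg]
      apply Real.exp_le_exp.mpr
      push_cast
      linarith
    have e3 : R ^ 19 * (1 / R ^ 81) = 1 / R ^ 62 := by field_simp
    have e4 : 1 / R ^ 62 ≤ (1 / R ^ 8) * (1 / (16 * R)) := by
      rw [one_div_mul_one_div]
      apply one_div_le_one_div_of_le (by positivity)
      have h57 : (16:ℝ) ≤ R ^ 53 := by
        calc (16:ℝ) ≤ R ^ 2 := by norm_num at hR2; linarith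
          _ ≤ R ^ 53 := pow_le_pow_right₀ (by linarith) (by norm_num)
      have : R ^ 62 = R ^ 8 * (R ^ 53 * R) := by ring
      rw [this]
      gcongr
    linarith
  · calc τ ≤ Real.exp (-(19 * L)) := by
          rw [hτ]
          apply Real.exp_le_exp.mpr
          linarith
      _ = 1 / R ^ 19 := by
          rw [hpow 19, one_div, ← Real.exp_neg]; norm_num
      _ ≤ ε := hεlo

theorem taskH : TaskH := taskH_aux

end Pool.Agent.H889R3.SA
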