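import Pool.Agent.H889R3.SA.UnitsSA
import Pool.Agent.H889R3.SA.TaskF
import Pool.Agent.H889R3.SA.TaskH
import Pool.Agent.H722R5.SA.TaskA1A2
import Pool.Agent.H683R3.SA.TaskA3
import Pool.Agent.H917R3.SA.TaskB12
import Pool.Agent.H784R3.SA.B3
import Pool.Agent.H217R3.SA.TaskC
import Pool.Agent.H214R3.SA.TaskD
import Pool.Agent.H996R3.SA.TaskE
import Pool.Agent.H875R3.SA.TaskG
import Pool.Agent.H603R3.SA.TaskI

/-!
# The noise stable Aaronson-Ambainis inequality: assembly
-/

set_option autoImplicit false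

namespace Pool.Agent.H889R3.SA

theorem allF : TaskF :=
  taskF taskA1 taskB1 Pool.Agent.H784R3.SA.taskB3 (taskC taskA2 taskB1)
    Pool.Agent.H214R3.SA.taskD Pool.Agent.H996R3.SA.taskE

theorem allG : TaskG := Pool.Agent.H875R3.SA.taskG allF taskB2

theorem allI : TaskI := Pool.Agent.H603R3.SAI.taskI taskB1 Pool.Agent.H784R3.SA.taskB3

end Pool.Agent.H889R3.SA
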