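import Pool.Agent.H889R3.SA.TaskF

set_option autoImplicit false

namespace Pool.Agent.H889R3.SA

open Finset Pool.Agent.H572R2 Pool.Agent.H572R4.QA

variable {N : ℕ}

/-- The noise stable variance. -/
noncomputable def st (δ : ℝ) (f : (Fin N → Bool) → ℝ) : ℝ :=
  ∑ T : Finset (Fin N), if T.Nonempty then (1 - δ) ^ T.card * fh f T ^ 2 else 0

lemma sg_eq (b : Bool) : sg b = (-1) * (-1 : ℝ) ^ b.toNat := by
  cases b <;> simp [sg]

lemma fh_deg (d : ℕ) (f : (Fin N → Bool) → ℝ) (hdeg : DegLe d f) (T : Finset (Fin N))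
    (hT : d < T.card) : fh f T = 0 := by
  have h := hdeg T hT
  unfold fh EE
  have e : ∑ x : Fin N → Bool, f x * ∏ i ∈ T, sg (x i)
      = (-1) ^ T.card * ∑ x : Fin N → Bool, f x * ∏ i ∈ T, (-1 : ℝ) ^ (x i).toNat := by
    rw [Finset.mul_sum]
    refine Finset.sum_congr rfl fun x _ => ?_
    have : ∏ i ∈ T, sg (x i) = (-1) ^ T.card * ∏ i ∈ T, (-1 : ℝ) ^ (x i).toNat := by
      rw [← Finset.prod_const, ← Finset.prod_mul_distrib]
      exact Finset.prod_congr rfl fun i _ => sg_eq _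
    rw [this]
    ring
  rw [e, h]
  simp

lemma st_le_var (hB3 : TaskB3) (δ : ℝ) (h0 : 0 ≤ δ) (h1 : δ ≤ 1) (f : (Fin N → Bool) → ℝ) :
    st δ f ≤ var f := by
  rw [(hB3 N f).2]
  unfold st
  refine Finset.sum_le_sum fun T _ => ?_
  split_ifs
  · exact mul_le_of_le_one_left (sq_nonneg _) (pow_le_one₀ (by linarith) (by linarith))
  · exact le_rfl

lemma QQ_le_var (hB3 : TaskB3) (c : ℕ → ℝ) (hc : ∀ t ≤ N, c t ≤ 1) (f : (Fin N → Bool) → ℝ) :
    QQ c f f ≤ var f := by
  rw [(hB3 N f).2]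
  unfold QQ
  refine Finset.sum_le_sum fun T _ => ?_
  split_ifs
  · rw [← sq]
    have : T.card ≤ N := by
      have := Finset.card_le_univ T
      simpa using this
    exact mul_le_of_le_one_left (sq_nonneg _) (hc _ this)
  · exact le_rfl

lemma QQ_ge_st (c : ℕ → ℝ) (δ : ℝ) (hc : ∀ t ≤ N, (1 - δ) ^ t / 2 ≤ c t)
    (f : (Fin N → Bool) → ℝ) : st δ f / 2 ≤ QQ c f f := by
  unfold QQ st
  rw [Finset.sum_div]
  refine Finset.sum_le_sum fun T _ => ?_
  split_ifs
  · rw [← sq]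
    have : T.card ≤ N := by
      have := Finset.card_le_univ T
      simpa using this
    have h := mul_le_mul_of_nonneg_right (hc _ this) (sq_nonneg (fh f T))
    linarith
  · simp

/-- The effective noise rate. -/
lemma st_max (d : ℕ) (hd : 1 ≤ d) (δ : ℝ) (h0 : 0 < δ) (h1 : δ ≤ 1 / 2) (f : (Fin N → Bool) → ℝ)
    (hdeg : DegLe d f) : 3 / 4 * st δ f ≤ st (max δ (1 / (4 * d))) f := by
  have hd1 : (1 : ℝ) ≤ d := by exact_mod_cast hd
  unfold st
  rw [Finset.mul_sum]
  refine Finset.sum_le_sum fun T _ => ?_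
  split_ifs
  · have hf := sq_nonneg (fh f T)
    rcases le_total (1 / (4 * (d : ℝ))) δ with h | h
    · rw [max_eq_left h]
      have : 0 ≤ (1 - δ) ^ T.card * fh f T ^ 2 :=
        mul_nonneg (pow_nonneg (by linarith) _) hf
      linarith
    · rw [max_eq_right h]
      by_cases hT : d < T.card
      · rw [fh_deg d f hdeg T hT]; simp
      · push Not at hT
        have hT' : (T.card : ℝ) ≤ d := by exact_mod_cast hT
        have h2 : (3 / 4 : ℝ) ≤ (1 - 1 / (4 * (d : ℝ))) ^ T.card := by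
          have h3 : (-2 : ℝ) ≤ -(1 / (4 * (d : ℝ))) := by
            have : 1 / (4 * (d : ℝ)) ≤ 1 := by
              rw [div_le_one (by positivity)]; linarith
            linarith
          have h4 := one_add_mul_le_pow h3 T.card
          have h5 : (T.card : ℝ) * (1 / (4 * (d : ℝ))) ≤ 1 / 4 := by
            rw [mul_one_div, div_le_div_iff₀ (by positivity) (by norm_num)]
            linarith
          have e : (1 : ℝ) + -(1 / (4 * (d : ℝ))) = 1 - 1 / (4 * (d : ℝ)) := by ring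
          rw [e] at h4
          linarith
        have h3 : (1 - δ) ^ T.card ≤ 1 := pow_le_one₀ (by linarith) (by linarith)
        rw [← mul_assoc]
        refine mul_le_mul_of_nonneg_right ?_ hf
        linarith
  · simp

/-- The numbers of the final estimate. -/
lemma num_step (d W τ ε S L : ℝ) (hd1 : 1 ≤ d) (hW0 : 0 < W) (hW1 : W ≤ 1)
    (hL : L = Real.log (4 * d / W)) (hS1 : 1 ≤ S) (hτ : 0 < τ) (hε : 0 < ε)
    (hτe : τ = Real.exp (-4977 * (S * L))) (hτε : τ ≤ ε) :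
    Real.exp (-(9960 * (S * L))) ≤ W ^ 2 * τ / (4 * d * (512 * d ^ 4 / ε)) := by
  have hd0 : (0 : ℝ) < d := by linarith
  have hq : 0 < 4 * d / W := by positivity
  have hexpL : Real.exp L = 4 * d / W := by rw [hL]; exact Real.exp_log hq
  have hdW : W ≤ d := by linarith
  have hexp4 : 4 ≤ Real.exp L := by
    rw [hexpL, le_div_iff₀ hW0]; linarith
  have hL0 : 0 ≤ L := by
    have : (1 : ℝ) ≤ Real.exp L := by linarith
    exact Real.one_le_exp_iff.1 this
  have e1 : W ^ 2 * τ / (4 * d * (512 * d ^ 4 / ε)) = W ^ 2 * τ * ε / (2048 * d ^ 5) := by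
    field_simp
    norm_num
  rw [e1]
  have hWe : W = 4 * d * Real.exp (-L) := by
    rw [Real.exp_neg, hexpL]; field_simp
  have hde : d ≤ Real.exp L / 4 := by
    rw [hexpL, le_div_iff₀ (by norm_num), le_div_iff₀ hW0]
    have : d * W ≤ d * 1 := mul_le_mul_of_nonneg_left hW1 hd0.le
    linarith
  have h2 : W ^ 2 * τ * τ / (2048 * d ^ 5) ≤ W ^ 2 * τ * ε / (2048 * d ^ 5) := by
    apply div_le_div_of_nonneg_right _ (by positivity)
    exact mul_le_mul_of_nonneg_left hτε (by positivity)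
  refine le_trans ?_ h2
  rw [le_div_iff₀ (by positivity)]
  have h3 : τ * τ = Real.exp (-(9954 * (S * L))) := by
    rw [hτe, ← Real.exp_add]; congr 1; ring
  have h4 : W ^ 2 = 16 * d ^ 2 * Real.exp (-(2 * L)) := by
    have : Real.exp (-(2 * L)) = Real.exp (-L) ^ 2 := by
      rw [← Real.exp_nat_mul]; congr 1; push_cast; ring
    rw [this]
    conv_lhs => rw [hWe]
    ring
  have h5 : Real.exp (-(9960 * (S * L))) ≤ Real.exp (-(9954 * (S * L))) * Real.exp (-(6 * L)) := by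
    rw [← Real.exp_add]
    apply Real.exp_le_exp.2
    have : L ≤ S * L := le_mul_of_one_le_left hL0 hS1
    linarith
  have h6 : d ^ 3 ≤ Real.exp (3 * L) / 64 := by
    have h := pow_le_pow_left₀ hd0.le hde 3
    have e : (Real.exp L / 4) ^ 3 = Real.exp (3 * L) / 64 := by
      rw [div_pow, ← Real.exp_nat_mul]
      norm_num
    rwa [e] at h
  have h7 : 2 * Real.exp (3 * L) ≤ Real.exp (4 * L) := by
    have : Real.exp (4 * L) = Real.exp (3 * L) * Real.exp L := by
      rw [← Real.exp_add]; congr 1; ring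
    rw [this]
    have := mul_le_mul_of_nonneg_left hexp4 (Real.exp_pos (3 * L)).le
    have := Real.exp_pos (3 * L)
    linarith
  have hA := Real.exp_pos (-(9954 * (S * L)))
  have hB := Real.exp_pos (-(6 * L))
  calc Real.exp (-(9960 * (S * L))) * (2048 * d ^ 5)
      ≤ Real.exp (-(9954 * (S * L))) * Real.exp (-(6 * L)) * (2048 * d ^ 5) :=
        mul_le_mul_of_nonneg_right h5 (by positivity)
    _ = Real.exp (-(9954 * (S * L))) * Real.exp (-(6 * L)) * 2048 * d ^ 2 * d ^ 3 := by ring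
    _ ≤ Real.exp (-(9954 * (S * L))) * Real.exp (-(6 * L)) * 2048 * d ^ 2
          * (Real.exp (3 * L) / 64) := mul_le_mul_of_nonneg_left h6 (by positivity)
    _ = 16 * d ^ 2 * Real.exp (-(9954 * (S * L))) * (Real.exp (-(6 * L)) * (2 * Real.exp (3 * L))) := by
        ring
    _ ≤ 16 * d ^ 2 * Real.exp (-(9954 * (S * L))) * (Real.exp (-(6 * L)) * Real.exp (4 * L)) := by
        refine mul_le_mul_of_nonneg_left ?_ (by positivity)
        exact mul_le_mul_of_nonneg_left h7 hB.le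
    _ = W ^ 2 * τ * τ := by
        rw [mul_assoc (W ^ 2), h3, h4, ← Real.exp_add]
        rw [show -(6 * L) + 4 * L = -(2 * L) by ring]
        ring

/-- Comparison of the exponents. -/
lemma num_exp (d W σ δ δ' S L : ℝ) (hd1 : 1 ≤ d) (hW0 : 0 < W) (hW1 : W ≤ 1)
    (hσ0 : 0 < σ) (hσ1 : σ ≤ 1) (hWσ : 3 / 8 * σ ≤ W) (hδ0 : 0 < δ) (hδδ' : δ ≤ δ')
    (hδ1 : δ ≤ 1 / 2) (hL : L = Real.log (4 * d / W)) (hS : S = 1 + Real.log (1 / δ')) :
    -49000 * (Real.log (1 / δ) * Real.log (4 * d / σ)) ≤ -(9960 * (S * L)) := by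
  have hq : 0 < 4 * d / W := by positivity
  have hdW : W ≤ d := by linarith
  have hL0 : 0 ≤ L := by
    rw [hL]
    refine Real.log_nonneg ?_
    rw [le_div_iff₀ hW0]; linarith
  have hlogδ : Real.log (1 / δ') ≤ Real.log (1 / δ) :=
    Real.log_le_log (by have := hδ0.trans_le hδδ'; positivity) (one_div_le_one_div_of_le hδ0 hδδ')
  have hlogδ2 : 0.69 ≤ Real.log (1 / δ) := by
    have h1 : Real.log 2 ≤ Real.log (1 / δ) := by
      refine Real.log_le_log (by norm_num) ?_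
      rw [le_div_iff₀ hδ0]; linarith
    have := Real.log_two_gt_d9
    linarith
  have hSb : S ≤ 2.45 * Real.log (1 / δ) := by rw [hS]; linarith
  have h4 : 4 ≤ 4 * d / σ := by
    rw [le_div_iff₀ hσ0]; linarith
  have hLb : L ≤ 2 * Real.log (4 * d / σ) := by
    have h1 : L ≤ Real.log (4 * d / (3 / 8 * σ)) := by
      rw [hL]
      refine Real.log_le_log hq ?_
      exact div_le_div_of_nonneg_left (by positivity) (by positivity) hWσ
    have h2 : Real.log (4 * d / (3 / 8 * σ)) ≤ Real.log ((4 * d / σ) ^ 2) := by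
      refine Real.log_le_log (by positivity) ?_
      have e : (4 * d / σ) ^ 2 = 4 * d / (3 / 8 * σ) * (3 / 8 * (4 * d / σ)) := by
        field_simp
      rw [e]
      refine le_mul_of_one_le_right (by positivity) ?_
      linarith
    rw [Real.log_pow] at h2
    push_cast at h2
    linarith
  have hlog4 : 0 ≤ Real.log (4 * d / σ) := Real.log_nonneg (by linarith)
  have hprod : S * L ≤ 2.45 * Real.log (1 / δ) * (2 * Real.log (4 * d / σ)) :=
    mul_le_mul hSb hLb hL0 (by linarith)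
  have hpos : 0 ≤ Real.log (1 / δ) * Real.log (4 * d / σ) :=
    mul_nonneg (by linarith) hlog4
  linarith

/-- values in `[0,1]` -/
theorem main01 (hA1 : TaskA1) (hA3 : TaskA3) (hB3 : TaskB3) (hG : TaskG) (hH : TaskH)
    (hI : TaskI) (d : ℕ) (hd : 1 ≤ d) (f : (Fin N → Bool) → ℝ)
    (f0 : ∀ x, 0 ≤ f x) (f1 : ∀ x, f x ≤ 1) (hdeg : DegLe d f) (δ : ℝ) (hδ0 : 0 < δ)
    (hδ1 : δ ≤ 1 / 2) (hst : 0 < st δ f) :
    ∃ i : Fin N, Real.exp (-49000 * (Real.log (1 / δ) * Real.log (4 * d / st δ f)))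
      ≤ inf1 f i := by
  have hd1 : (1 : ℝ) ≤ d := by exact_mod_cast hd
  have hd0 : (0 : ℝ) < d := by linarith
  obtain ⟨δ', hδ'⟩ : ∃ δ', δ' = max δ (1 / (4 * (d : ℝ))) := ⟨_, rfl⟩
  have h14 : 1 / (4 * (d : ℝ)) ≤ 1 / 4 := by
    rw [div_le_div_iff₀ (by positivity) (by norm_num)]; linarith
  have hδ'0 : 0 < δ' := by rw [hδ']; exact lt_max_of_lt_left hδ0
  have hδ'1 : δ' ≤ 1 / 2 := by rw [hδ']; exact max_le hδ1 (by linarith)
  have hδδ' : δ ≤ δ' := by rw [hδ']; exact le_max_left _ _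
  have hδ'd : 1 / (4 * (d : ℝ)) ≤ δ' := by rw [hδ']; exact le_max_right _ _
  have hs1 := st_max d hd δ hδ0 hδ1 f hdeg
  rw [← hδ'] at hs1
  obtain ⟨n, m, hNn, hmn, hcl, hhh⟩ := hA3 N δ' hδ'0 hδ'1
  obtain ⟨c, hc⟩ : ∃ c, c = cc n m := ⟨_, rfl⟩
  rw [← hc] at hcl
  have hc01 : ∀ t ≤ N, 0 ≤ c t ∧ c t ≤ 1 := fun t ht => by
    rw [hc]; exact hA1 n m t hmn (ht.trans hNn)
  obtain ⟨W, hW⟩ : ∃ W, W = QQ c f f := ⟨_, rfl⟩
  have hWσ : 3 / 8 * st δ f ≤ W := by
    have := QQ_ge_st c δ' hcl f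
    rw [← hW] at this
    linarith
  have hW0 : 0 < W := by
    have : 0 < 3 / 8 * st δ f := by positivity
    linarith
  have hWv : W ≤ var f := by rw [hW]; exact QQ_le_var hB3 c (fun t ht => (hc01 t ht).2) f
  have hv1 := var_le_one' f f0 f1
  have hW1 : W ≤ 1 := hWv.trans hv1
  have hσ1 : st δ f ≤ 1 := (st_le_var hB3 δ hδ0.le (by linarith) f).trans hv1
  -- the numbers
  obtain ⟨S, hS⟩ : ∃ S, S = 1 + Real.log (1 / δ') := ⟨_, rfl⟩
  obtain ⟨L, hL⟩ : ∃ L, L = Real.log (4 * d / W) := ⟨_, rfl⟩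
  have hlog0 : 0 ≤ Real.log (1 / δ') := Real.log_nonneg (by rw [le_div_iff₀ hδ'0]; linarith)
  have hS1 : 1 ≤ S := by rw [hS]; linarith
  have hSL : S ≤ 1 + L := by
    rw [hS, hL]
    have : Real.log (1 / δ') ≤ Real.log (4 * d / W) := by
      refine Real.log_le_log (by positivity) ?_
      rw [div_le_div_iff₀ hδ'0 hW0]
      rw [div_le_iff₀ (by positivity)] at hδ'd
      nlinarith
    linarith
  obtain ⟨γ, ε, K, τ, T, hγ, hε, hε1, hT, hεT, hτ, hK, p1, p2, p3, p4, hτe, hτε⟩ :=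
    hH d W S hd hW0 hW1 hS1 (by rw [← hL]; exact hSL)
  obtain ⟨w, H⟩ := hyp_exists d hd f f0 f1 hdeg ε hε
  have hk : (0:ℝ) < 512 * (d:ℝ) ^ 4 / ε := by positivity
  have hsum : ∑ i, inf1 f i ≤ (d : ℝ) := by
    refine (sum_inf1_le d f hdeg).trans ?_
    have := mul_le_mul_of_nonneg_left hv1 hd0.le
    linarith
  obtain ⟨i, hi⟩ := hI N c (fun t ht => (hc01 t ht).1) (fun t ht => (hc01 t ht).2) f w H.w0
    (512 * (d:ℝ) ^ 4 / ε) τ d hk hτ hd0 H.wk hsum (by rw [← hW]; exact hW0) (by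
      intro Sx a hSx
      have h := hG N γ ε (512 * (d:ℝ) ^ 4 / ε) (4 * (d:ℝ) ^ 2) hε hk (by positivity) hγ T hT hεT
        (W / 64) τ (by positivity) hτ K S hK hS1 p1 p2 p3 p4
        (fun x => f (mix Sx a x)) (fun i x => w i (mix Sx a x)) (hyp_mix H Sx a) Sxᶜ (by
          intro i hi x
          have : i ∈ Sx := by simpa using hi
          rw [mix_flp_mem this]) hSx n m hNn hmn (by rw [hS]; exact hhh)
      rw [← hW, hc]
      linarith)
  refine ⟨i, le_trans ?_ hi⟩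
  rw [← hW]
  exact (Real.exp_le_exp.2 (num_exp d W (st δ f) δ δ' S L hd1 hW0 hW1 hst hσ1 hWσ hδ0 hδδ' hδ1 hL hS)).trans
    (num_step d W τ ε S L hd1 hW0 hW1 hL hS1 hτ hε (by rw [hL]; exact hτe) hτε)

/-- values in `[-1,1]` -/
theorem main11 (hA1 : TaskA1) (hA3 : TaskA3) (hB3 : TaskB3) (hG : TaskG) (hH : TaskH)
    (hI : TaskI) (d : ℕ) (hd : 1 ≤ d) (f : (Fin N → Bool) → ℝ)
    (hf : ∀ x, |f x| ≤ 1) (hdeg : DegLe d f) (δ : ℝ) (hδ0 : 0 < δ)
    (hδ1 : δ ≤ 1 / 2) (hst : 0 < st δ f) :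
    ∃ i : Fin N, (st δ f / (4 * d)) ^ (98000 * Real.log (1 / δ)) ≤ inf1 f i := by
  have hd1 : (1 : ℝ) ≤ d := by exact_mod_cast hd
  set g : (Fin N → Bool) → ℝ := fun x => 1 / 2 + 1 / 2 * f x with hg
  have hg0 : ∀ x, 0 ≤ g x := fun x => by
    have := abs_le.1 (hf x); simp only [hg]; linarith [this.1]
  have hg1 : ∀ x, g x ≤ 1 := fun x => by
    have := abs_le.1 (hf x); simp only [hg]; linarith [this.2]
  have hchi : ∀ T : Finset (Fin N), T.Nonempty → ∑ x : Fin N → Bool, ∏ i ∈ T, sg (x i) = 0 := by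
    intro T ⟨a, ha⟩
    have hinv : ∑ x : Fin N → Bool, ∏ i ∈ T, sg (x i)
        = ∑ x : Fin N → Bool, -∏ i ∈ T, sg (x i) := by
      rw [← Equiv.sum_comp (flpEquiv a) (fun x => ∏ i ∈ T, sg (x i))]
      refine Finset.sum_congr rfl fun x _ => ?_
      rw [← Finset.mul_prod_erase T _ ha, ← Finset.mul_prod_erase T _ ha]
      have e1 : ∏ i ∈ T.erase a, sg ((flpEquiv a x) i) = ∏ i ∈ T.erase a, sg (x i) := by
        refine Finset.prod_congr rfl fun i hi => ?_
        show sg (flp a x i) = _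
        rw [flp_ne (Finset.ne_of_mem_erase hi)]
      have e2 : sg ((flpEquiv a x) a) = - sg (x a) := by
        show sg (flp a x a) = _
        rw [flp_same]
        cases x a <;> simp [sg]
      rw [e1, e2]; ring
    rw [Finset.sum_neg_distrib] at hinv
    linarith
  have hfh : ∀ T : Finset (Fin N), T.Nonempty → fh g T = 1 / 2 * fh f T := by
    intro T hT
    unfold fh EE
    have : ∑ x, g x * ∏ i ∈ T, sg (x i)
        = (1 / 2 : ℝ) * (∑ x : Fin N → Bool, ∏ i ∈ T, sg (x i))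
          + (1 / 2 : ℝ) * (∑ x, f x * ∏ i ∈ T, sg (x i)) := by
      rw [Finset.mul_sum, Finset.mul_sum, ← Finset.sum_add_distrib]
      refine Finset.sum_congr rfl fun x _ => ?_
      simp only [hg]; ring
    rw [this, hchi T hT]
    ring
  have hstg : st δ g = st δ f / 4 := by
    unfold st
    rw [Finset.sum_div]
    refine Finset.sum_congr rfl fun T _ => ?_
    split_ifs with hT
    · rw [hfh T hT]; ring
    · simp
  have hinfg : ∀ i, inf1 g i = inf1 f i / 4 := by
    intro i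
    unfold inf1
    have : EE (fun x => dd g i x ^ 2) = (1 / 4) * EE (fun x => dd f i x ^ 2) := by
      rw [← EE_mul]
      apply EE_congr
      intro x
      unfold dd
      rw [sq_abs, sq_abs]
      simp only [hg]
      ring
    rw [this]
    ring
  have hgdeg : DegLe d g := by
    intro S hS
    have h1 := hdeg S hS
    have h0 : ∑ x : Fin N → Bool, ∏ i ∈ S, (-1 : ℝ) ^ (x i).toNat = 0 := by
      have h2 := hchi S (Finset.card_pos.1 (by omega))
      have e : ∑ x : Fin N → Bool, ∏ i ∈ S, sg (x i)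
          = (-1) ^ S.card * ∑ x : Fin N → Bool, ∏ i ∈ S, (-1 : ℝ) ^ (x i).toNat := by
        rw [Finset.mul_sum]
        refine Finset.sum_congr rfl fun x _ => ?_
        rw [← Finset.prod_const, ← Finset.prod_mul_distrib]
        exact Finset.prod_congr rfl fun i _ => sg_eq _
      rw [e] at h2
      rcases mul_eq_zero.1 h2 with h3 | h3
      · exact absurd h3 (pow_ne_zero _ (by norm_num))
      · exact h3
    have : ∑ x, g x * ∏ i ∈ S, (-1 : ℝ) ^ (x i).toNat
        = (1 / 2 : ℝ) * (∑ x : Fin N → Bool, ∏ i ∈ S, (-1 : ℝ) ^ (x i).toNat)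
          + (1 / 2 : ℝ) * (∑ x, f x * ∏ i ∈ S, (-1 : ℝ) ^ (x i).toNat) := by
      rw [Finset.mul_sum, Finset.mul_sum, ← Finset.sum_add_distrib]
      refine Finset.sum_congr rfl fun x _ => ?_
      simp only [hg]; ring
    rw [this, h0, h1]; ring
  obtain ⟨i, hi⟩ := main01 hA1 hA3 hB3 hG hH hI d hd g hg0 hg1 hgdeg δ hδ0 hδ1
    (by rw [hstg]; linarith)
  refine ⟨i, ?_⟩
  have hin : 0 ≤ inf1 f i := inf1_nonneg f i
  have hσ1 : st δ f ≤ 1 := by
    have h1 := st_le_var hB3 δ hδ0.le (by linarith) g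
    rw [hstg] at h1
    have h2 : var g ≤ 1 / 4 := by
      have h1 : var g ≤ EE (fun x => (g x - 1 / 2) ^ 2) := by
        have : EE (fun x => (g x - 1 / 2) ^ 2) = EE (fun x => g x ^ 2) - EE g + 1 / 4 := by
          have : EE (fun x => (g x - 1 / 2) ^ 2) = EE (fun x => (g x ^ 2 - g x) + 1 / 4) := by
            apply EE_congr; intro x; ring
          rw [this, EE_add, EE_sub, EE_const]
        rw [this]; unfold var
        nlinarith [sq_nonneg (EE g - 1 / 2)]
      refine h1.trans ?_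
      rw [← EE_const (N := N) (1 / 4)]
      exact EE_mono fun x => by nlinarith [hg0 x, hg1 x]
    linarith
  have hq : 0 < st δ f / (4 * d) := by positivity
  refine le_trans ?_ (le_trans hi (by rw [hinfg]; linarith))
  rw [Real.rpow_def_of_pos hq]
  apply Real.exp_le_exp.2
  rw [hstg]
  have e1 : Real.log (4 * d / (st δ f / 4)) = Real.log 4 - Real.log (st δ f / (4 * d)) := by
    rw [← Real.log_div (by norm_num) (by positivity)]
    congr 1
    field_simp
  have h2 : Real.log 4 ≤ - Real.log (st δ f / (4 * d)) := by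
    rw [← Real.log_inv]
    apply Real.log_le_log (by norm_num)
    rw [inv_div, le_div_iff₀ hst]
    nlinarith
  have hlogδ : 0 ≤ Real.log (1 / δ) := Real.log_nonneg (by rw [le_div_iff₀ hδ0]; linarith)
  rw [e1]
  have h3 : Real.log 4 - Real.log (st δ f / (4 * d)) ≤ -2 * Real.log (st δ f / (4 * d)) := by
    linarith
  have h4 := mul_le_mul_of_nonneg_left h3 hlogδ
  nlinarith

end Pool.Agent.H889R3.SA
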