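import Pool.Agent.H572R4.QB.Main2
import Pool.Agent.H746R2.AA.Hyper

/-!
# Noise stable Aaronson-Ambainis inequality: definitions and tasks
-/

set_option autoImplicit false

namespace Pool.Agent.H889R3.SA

open Finset Pool.Agent.H572R2 Pool.Agent.H572R4.QA

/-- Fourier coefficient on the cube `Fin N → Bool` (`sg true = 1`, `sg false = -1`). -/
noncomputable def fh {N : ℕ} (f : (Fin N → Bool) → ℝ) (T : Finset (Fin N)) : ℝ :=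
  EE (fun x => f x * ∏ i ∈ T, sg (x i))

/-- Probability that a uniform `m`-subset of an `n`-set contains a given `t`-subset. -/
noncomputable def cc (n m t : ℕ) : ℝ := ∏ i ∈ Finset.range t, ((m : ℝ) - i) / ((n : ℝ) - i)

/-- Time needed for revealing `m` out of `n` coordinates. -/
noncomputable def hh (n m : ℕ) : ℝ := ∑ i ∈ Finset.range m, 1 / ((n : ℝ) - i)

/-- Covariance with coefficients `c`. -/
noncomputable def QQ {N : ℕ} (c : ℕ → ℝ) (f g : (Fin N → Bool) → ℝ) : ℝ :=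
  ∑ T : Finset (Fin N), if T.Nonempty then c T.card * (fh f T * fh g T) else 0

/-- Expected weight of `f` on the nonempty sets inside a random set of revealed coordinates. -/
noncomputable def GG {N : ℕ} (n m : ℕ) (A : Finset (Fin N)) (f : (Fin N → Bool) → ℝ) : ℝ :=
  ∑ T : Finset (Fin N), if T.Nonempty ∧ T ⊆ A then cc n m T.card * fh f T ^ 2 else 0

/-- The potential, third version. -/
noncomputable def Phi3 {N : ℕ} (γ ε : ℝ) (T : ℕ) (ca m0 K S cr : ℝ) (s : ℝ)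
    (f : (Fin N → Bool) → ℝ) (w : Fin N → (Fin N → Bool) → ℝ) (A : Finset (Fin N)) : ℝ :=
  1 / (4 * ca * (m0 * Real.exp ((5 + 4 * Real.log K) * s))) * Yh γ ε T f A
    + ca * ∑ i ∈ A, EE (w i) + cr * (S - s) + th γ ε T / 4 * ∑ i ∈ A, EE (dd f i)

/-- TASK A1. -/
def TaskA1 : Prop := ∀ n m t : ℕ, m ≤ n → t ≤ n → 0 ≤ cc n m t ∧ cc n m t ≤ 1

/-- TASK A2. -/
def TaskA2 : Prop := ∀ n m t : ℕ, m ≤ n → 1 ≤ t → t ≤ n + 1 →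
  ((n : ℝ) + 1) * cc (n + 1) (m + 1) t = ((n : ℝ) + 1 - t) * cc n m t + t * cc n m (t - 1)

/-- TASK A3. -/
def TaskA3 : Prop := ∀ (N : ℕ) (δ : ℝ), 0 < δ → δ ≤ 1 / 2 →
  ∃ n m : ℕ, N ≤ n ∧ m ≤ n ∧ (∀ t ≤ N, (1 - δ) ^ t / 2 ≤ cc n m t) ∧
    hh n m ≤ 1 + Real.log (1 / δ)

/-- TASK B1. -/
def TaskB1 : Prop := ∀ (N : ℕ) (f : (Fin N → Bool) → ℝ) (j : Fin N) (T : Finset (Fin N)), j ∉ T →
  fh (rs j true f) T = fh f T + fh f (insert j T) ∧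
  fh (rs j false f) T = fh f T - fh f (insert j T)

/-- TASK B2. -/
def TaskB2 : Prop := ∀ (N : ℕ) (f : (Fin N → Bool) → ℝ) (i : Fin N) (T : Finset (Fin N)),
  (∀ x, f (flp i x) = f x) → i ∈ T → fh f T = 0

/-- TASK B3. -/
def TaskB3 : Prop := ∀ (N : ℕ) (f : (Fin N → Bool) → ℝ),
  (∀ i : Fin N, inf1 f i = ∑ T : Finset (Fin N), if i ∈ T then fh f T ^ 2 else 0) ∧
  var f = ∑ T : Finset (Fin N), if T.Nonempty then fh f T ^ 2 else 0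

/-- TASK C (from A2, B1): exact recursion. -/
def TaskC : Prop := ∀ (N : ℕ) (f : (Fin N → Bool) → ℝ) (n m : ℕ) (A : Finset (Fin N)), m ≤ n →
  A.card ≤ n + 1 →
  ((n : ℝ) + 1) * GG (n + 1) (m + 1) A f = ((n : ℝ) + 1 - A.card) * GG n m A f
    + ∑ j ∈ A, ((GG n m (A.erase j) (rs j true f) + GG n m (A.erase j) (rs j false f)) / 2
      + fh f {j} ^ 2)

/-- TASK D: freezing a coordinate. -/
def TaskD : Prop := ∀ (N : ℕ) (f : (Fin N → Bool) → ℝ) (w : Fin N → (Fin N → Bool) → ℝ)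
  (γ ε : ℝ) (T : ℕ) (ca m0 K S cr s : ℝ) (A : Finset (Fin N)) (i : Fin N),
  1 ≤ T → 0 < ca → 0 < m0 → (∀ i x, 0 ≤ w i x) → i ∈ A →
  m0 * Real.exp ((5 + 4 * Real.log K) * s) < EE (w i) →
  pp f (th γ ε T) i + th γ ε T / 4 * EE (dd f i) + Phi3 γ ε T ca m0 K S cr s f w (A.erase i)
    ≤ Phi3 γ ε T ca m0 K S cr s f w A

/-- TASK E: revealing a coordinate. -/
def TaskE : Prop := ∀ (N : ℕ) (f : (Fin N → Bool) → ℝ) (w : Fin N → (Fin N → Bool) → ℝ)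
  (ε k s₀ : ℝ), Hyp f w ε k s₀ → 0 < ε → 0 ≤ k → 0 ≤ s₀ → ∀ (γ : ℝ), 0 < γ → ∀ (T : ℕ), 1 ≤ T →
  ∀ (ca m0 K S cr s : ℝ), 0 < ca → 0 < m0 → 1 ≤ K → 0 ≤ s → ∀ (n : ℕ), s + 1 / ((n : ℝ) + 1) ≤ S →
  4 * ca * (m0 * Real.exp ((5 + 4 * Real.log K) * S)) ≤ 1 →
  th γ ε T * s₀ / 2 + 4 * (k / (4 * ε ^ 2)) * (s₀ / γ) / (ca * K)
      + (1 / 2 : ℝ) ^ T * (s₀ / γ) / (5 * ca * m0) ≤ cr →
  ∀ (A : Finset (Fin N)), A.card ≤ n + 1 →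
  (∀ j ∈ A, EE (w j) ≤ m0 * Real.exp ((5 + 4 * Real.log K) * s)) →
  (((n : ℝ) + 1 - A.card) * Phi3 γ ε T ca m0 K S cr (s + 1 / ((n : ℝ) + 1)) f w A
    + ∑ j ∈ A, ((Phi3 γ ε T ca m0 K S cr (s + 1 / ((n : ℝ) + 1)) (rs j true f)
                (fun i => rs j true (w i)) (A.erase j)
            + Phi3 γ ε T ca m0 K S cr (s + 1 / ((n : ℝ) + 1)) (rs j false f)
                (fun i => rs j false (w i)) (A.erase j)) / 2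
          + EE (dd f j) ^ 2 / 4)) / ((n : ℝ) + 1)
      ≤ Phi3 γ ε T ca m0 K S cr s f w A

/-- TASK F (from A1, B1, B3, C, D, E): the process. -/
def TaskF : Prop := ∀ (N : ℕ) (γ ε k s₀ : ℝ), 0 < ε → 0 ≤ k → 0 ≤ s₀ → 0 < γ → ∀ (T : ℕ), 1 ≤ T →
  ∀ (ca m0 K S cr : ℝ), 0 < ca → 0 < m0 → 1 ≤ K →
  4 * ca * (m0 * Real.exp ((5 + 4 * Real.log K) * S)) ≤ 1 →
  th γ ε T * s₀ / 2 + 4 * (k / (4 * ε ^ 2)) * (s₀ / γ) / (ca * K)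
      + (1 / 2 : ℝ) ^ T * (s₀ / γ) / (5 * ca * m0) ≤ cr →
  ∀ (n m : ℕ) (A : Finset (Fin N)), m ≤ n → A.card ≤ n → ∀ (s : ℝ), 0 ≤ s → s + hh n m ≤ S →
  ∀ (f : (Fin N → Bool) → ℝ) (w : Fin N → (Fin N → Bool) → ℝ), Hyp f w ε k s₀ →
    GG n m A f ≤ Phi3 γ ε T ca m0 K S cr s f w A

/-- TASK G (from F, B2): cold functions (compare `cold_abs2` in `QB/E4.lean`). -/
def TaskG : Prop := ∀ (N : ℕ) (γ ε k s₀ : ℝ), 0 < ε → 0 < k → 0 < s₀ → 0 < γ → ∀ (T : ℕ), 1 ≤ T →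
  8 * ε * T ≤ γ → ∀ (ε₁ τ : ℝ), 0 < ε₁ → 0 < τ → ∀ (K S : ℝ), 1 ≤ K → 1 ≤ S →
  γ * s₀ * S ≤ ε₁ →
  k ^ 2 * (s₀ / γ) * S ≤ ε ^ 2 * ε₁ ^ 2 * K →
  (1 / 2 : ℝ) ^ T * γ * S ≤ 5 * τ →
  4 * (s₀ / γ) * τ * Real.exp (5 * S) * Real.exp (4 * Real.log K * S) ≤ γ * ε₁ →
  ∀ (f : (Fin N → Bool) → ℝ) (w : Fin N → (Fin N → Bool) → ℝ), Hyp f w ε k s₀ →
  ∀ (A : Finset (Fin N)), (∀ i ∉ A, ∀ x, f (flp i x) = f x) → (∀ i ∈ A, EE (w i) ≤ τ) →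
  ∀ (n m : ℕ), N ≤ n → m ≤ n → hh n m ≤ S → QQ (cc n m) f f ≤ 6 * ε₁

/-- TASK H: the numbers (compare `E5_aux` in `QB/E5.lean`). -/
def TaskH : Prop := ∀ (d : ℕ) (V S : ℝ), 1 ≤ d → 0 < V → V ≤ 1 → 1 ≤ S →
  S ≤ 1 + Real.log (4 * d / V) →
    ∃ (γ ε K τ : ℝ) (T : ℕ), 0 < γ ∧ 0 < ε ∧ ε ≤ 1 ∧
      1 ≤ T ∧ 8 * ε * T ≤ γ ∧ 0 < τ ∧ 1 ≤ K ∧
      γ * (4 * (d:ℝ) ^ 2) * S ≤ V / 64 ∧
      (512 * (d:ℝ) ^ 4 / ε) ^ 2 * ((4 * (d:ℝ) ^ 2) / γ) * S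
        ≤ ε ^ 2 * (V / 64) ^ 2 * K ∧
      (1 / 2 : ℝ) ^ T * γ * S ≤ 5 * τ ∧
      4 * ((4 * (d:ℝ) ^ 2) / γ) * τ * Real.exp (5 * S) * Real.exp (4 * Real.log K * S)
        ≤ γ * (V / 64) ∧
      τ = Real.exp (-4977 * (S * Real.log (4 * d / V))) ∧ τ ≤ ε

/-- TASK I (from B1, B3): the decision tree argument (compare `cov_bound` and `main` in
`H703R3/QS/Osss.lean`). -/
def TaskI : Prop := ∀ (N : ℕ) (c : ℕ → ℝ), (∀ t ≤ N, 0 ≤ c t) → (∀ t ≤ N, c t ≤ 1) →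
  ∀ (f : (Fin N → Bool) → ℝ) (w : Fin N → (Fin N → Bool) → ℝ), (∀ i x, 0 ≤ w i x) →
  ∀ (k τ J : ℝ), 0 < k → 0 < τ → 0 < J → (∀ x, ∑ i, w i x ≤ k) → (∑ i, inf1 f i ≤ J) →
  0 < QQ c f f →
  (∀ (S : Finset (Fin N)) (a : Fin N → Bool), (∀ i ∈ Sᶜ, Ex S a (w i) ≤ τ) →
    QQ c (fun x => f (mix S a x)) (fun x => f (mix S a x)) ≤ QQ c f f / 4) →
  ∃ i : Fin N, QQ c f f ^ 2 * τ / (4 * J * k) ≤ inf1 f i

end Pool.Agent.H889R3.SA
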