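import Pool.Agent.H889R3.SA.Final
import Pool.Agent.H572R4.QB.Units

set_option autoImplicit false

namespace Pool.Agent.H889R3.SA

open Finset Pool.Agent.H572R2 Pool.Agent.H572R4.QA

/-- The inequality for functions on `{-1,1}^n`, in the normalised form. -/
theorem mainU (hA1 : TaskA1) (hA3 : TaskA3) (hB3 : TaskB3) (hG : TaskG) (hH : TaskH)
    (hI : TaskI) (n : ℕ) (f : (Fin n → ℤˣ) → ℝ) (d : ℕ) (hd : 1 ≤ d)
    (hdeg : ∀ S : Finset (Fin n), d < S.card →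
      ∑ x : Fin n → ℤˣ, f x * ∏ i ∈ S, ((x i : ℤ) : ℝ) = 0)
    (B : ℝ) (hB0 : 0 < B) (hle : ∀ x, |f x| ≤ B) (δ : ℝ) (hδ0 : 0 < δ) (hδ1 : δ ≤ 1 / 2)
    (σ : ℝ) (hσ : σ = ∑ S ∈ Finset.univ.erase (∅ : Finset (Fin n)), (1 - δ) ^ S.card
      * ((∑ x : Fin n → ℤˣ, f x * ∏ i ∈ S, ((x i : ℤ) : ℝ)) / (2 : ℝ) ^ n) ^ 2)
    (hσ0 : 0 < σ) :
    ∃ j : Fin n, (σ / (4 * d * B ^ 2)) ^ (98000 * Real.log (1 / δ)) ≤
      (∑ x : Fin n → ℤˣ,
        ((f (Function.update x j 1) - f (Function.update x j (-1))) / 2) ^ 2)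
          / (2 : ℝ) ^ n / B ^ 2 := by
  set g : (Fin n → Bool) → ℝ := fun x => f (cubeEquiv n x) / B with hg
  have hg1 : ∀ x, |g x| ≤ 1 := by
    intro x
    simp only [hg]
    rw [abs_div, abs_of_pos hB0, div_le_one hB0]
    exact hle _
  have hsum : ∀ G : (Fin n → ℤˣ) → ℝ, ∑ x, G (cubeEquiv n x) = ∑ x, G x :=
    fun G => Equiv.sum_comp (cubeEquiv n) G
  have hbu : ∀ b : Bool, (((bu b : ℤˣ) : ℤ) : ℝ) = (-1 : ℝ) ^ b.toNat := by
    intro b; cases b <;> simp [bu]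
  have hfour : ∀ S : Finset (Fin n), ∑ x, g x * ∏ i ∈ S, (-1 : ℝ) ^ (x i).toNat
      = (∑ x : Fin n → ℤˣ, f x * ∏ i ∈ S, ((x i : ℤ) : ℝ)) / B := by
    intro S
    rw [← hsum (fun x => f x * ∏ i ∈ S, ((x i : ℤ) : ℝ)), Finset.sum_div]
    refine Finset.sum_congr rfl fun x _ => ?_
    simp only [hg, cubeEquiv_apply, hbu]
    ring
  have hgdeg : DegLe d g := by
    intro S hS
    rw [hfour S, hdeg S hS, zero_div]
  have hfh : ∀ S : Finset (Fin n), fh g S ^ 2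
      = ((∑ x : Fin n → ℤˣ, f x * ∏ i ∈ S, ((x i : ℤ) : ℝ)) / (2 : ℝ) ^ n) ^ 2 / B ^ 2 := by
    intro S
    unfold fh EE
    have e : ∑ x : Fin n → Bool, g x * ∏ i ∈ S, sg (x i)
        = (-1) ^ S.card * ∑ x : Fin n → Bool, g x * ∏ i ∈ S, (-1 : ℝ) ^ (x i).toNat := by
      rw [Finset.mul_sum]
      refine Finset.sum_congr rfl fun x _ => ?_
      have : ∏ i ∈ S, sg (x i) = (-1) ^ S.card * ∏ i ∈ S, (-1 : ℝ) ^ (x i).toNat := by
        rw [← Finset.prod_const, ← Finset.prod_mul_distrib]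
        exact Finset.prod_congr rfl fun i _ => sg_eq _
      rw [this]
      ring
    rw [e, hfour S, mul_div_assoc, mul_pow, ← pow_mul, mul_comm S.card 2, pow_mul]
    norm_num
    ring
  have hst : st δ g = σ / B ^ 2 := by
    rw [hσ, Finset.sum_div]
    unfold st
    rw [← Finset.add_sum_erase Finset.univ _ (Finset.mem_univ (∅ : Finset (Fin n)))]
    rw [if_neg (by simp), zero_add]
    refine Finset.sum_congr rfl fun S hS => ?_
    rw [if_pos (Finset.nonempty_iff_ne_empty.2 (Finset.ne_of_mem_erase hS)), hfh S]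
    ring
  have hst0 : 0 < st δ g := by rw [hst]; positivity
  obtain ⟨j, hj⟩ := main11 hA1 hA3 hB3 hG hH hI d hd g hg1 hgdeg δ hδ0 hδ1 hst0
  refine ⟨j, ?_⟩
  have hinf : inf1 g j
      = (∑ x : Fin n → ℤˣ,
          ((f (Function.update x j 1) - f (Function.update x j (-1))) / 2) ^ 2)
            / (2 : ℝ) ^ n / B ^ 2 := by
    unfold inf1 EE
    rw [← hsum (fun x => ((f (Function.update x j 1) - f (Function.update x j (-1))) / 2) ^ 2),
      div_right_comm, div_right_comm _ _ (B ^ 2)]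
    congr 1
    rw [Finset.sum_div, Finset.sum_div]
    refine Finset.sum_congr rfl fun x _ => ?_
    have e1 : Function.update (cubeEquiv n x) j 1 = cubeEquiv n (Function.update x j false) := by
      rw [cubeEquiv_update]; rfl
    have e2 : Function.update (cubeEquiv n x) j (-1) = cubeEquiv n (Function.update x j true) := by
      rw [cubeEquiv_update]; rfl
    rw [e1, e2]
    unfold dd
    rw [sq_abs]
    simp only [hg]
    unfold flp
    cases hx : x j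
    · have h1 : Function.update x j false = x := by
        rw [← hx]; exact Function.update_eq_self j x
      simp only [h1, Bool.not_false]
      ring
    · have h1 : Function.update x j true = x := by
        rw [← hx]; exact Function.update_eq_self j x
      simp only [h1, Bool.not_true]
      ring
  rw [hinf, hst] at hj
  have e4 : σ / B ^ 2 / (4 * ↑d) = σ / (4 * ↑d * B ^ 2) := by
    field_simp
  rw [e4] at hj
  exact hj

/-- Values in `[-1,1]`. -/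
theorem mainA (hA1 : TaskA1) (hA3 : TaskA3) (hB3 : TaskB3) (hG : TaskG) (hH : TaskH)
    (hI : TaskI) : ∃ C : ℝ, 0 < C ∧ ∀ (n : ℕ) (f : (Fin n → ℤˣ) → ℝ), (∀ x, |f x| ≤ 1) →
    ∀ d : ℕ, 1 ≤ d →
      (∀ S : Finset (Fin n), d < S.card →
        ∑ x : Fin n → ℤˣ, f x * ∏ i ∈ S, ((x i : ℤ) : ℝ) = 0) →
    ∀ δ : ℝ, 0 < δ → δ ≤ 1 / 2 → ∀ σ : ℝ,
      σ = ∑ S ∈ Finset.univ.erase (∅ : Finset (Fin n)), (1 - δ) ^ S.card
        * ((∑ x : Fin n → ℤˣ, f x * ∏ i ∈ S, ((x i : ℤ) : ℝ)) / (2 : ℝ) ^ n) ^ 2 →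
      0 < σ →
      ∃ j : Fin n, (σ / (4 * (d : ℝ))) ^ (C * Real.log (1 / δ)) ≤
        (∑ x : Fin n → ℤˣ,
          ((f (Function.update x j 1) - f (Function.update x j (-1))) / 2) ^ 2)
            / (2 : ℝ) ^ n := by
  refine ⟨98000, by norm_num, ?_⟩
  intro n f hf d hd hdeg δ hδ0 hδ1 σ hσ hσ0
  obtain ⟨j, hj⟩ := mainU hA1 hA3 hB3 hG hH hI n f d hd hdeg 1 one_pos hf δ hδ0 hδ1 σ hσ hσ0
  refine ⟨j, ?_⟩
  simpa using hj

/-- The form of the strengthened conjecture. -/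
theorem mainB (hA1 : TaskA1) (hA3 : TaskA3) (hB3 : TaskB3) (hG : TaskG) (hH : TaskH)
    (hI : TaskI) : ∃ C : ℝ, 0 < C ∧ ∀ (n : ℕ) (f : (Fin n → ℤˣ) → ℝ) (d : ℕ), 1 ≤ d →
      (∀ S : Finset (Fin n), d < S.card →
        ∑ x : Fin n → ℤˣ, f x * ∏ i ∈ S, ((x i : ℤ) : ℝ) = 0) →
    ∀ δ : ℝ, 0 < δ → δ ≤ 1 / 2 → ∀ σ : ℝ,
      σ = ∑ S ∈ Finset.univ.erase (∅ : Finset (Fin n)), (1 - δ) ^ S.card
        * ((∑ x : Fin n → ℤˣ, f x * ∏ i ∈ S, ((x i : ℤ) : ℝ)) / (2 : ℝ) ^ n) ^ 2 →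
      0 < σ →
      (⨆ x : Fin n → ℤˣ, |f x|) *
        (σ / (4 * (d : ℝ) * (⨆ x : Fin n → ℤˣ, |f x|) ^ 2)) ^ (C * Real.log (1 / δ))
      ≤ ⨆ j : Fin n, Real.sqrt
          ((∑ x : Fin n → ℤˣ,
              ((f (Function.update x j 1) - f (Function.update x j (-1))) / 2) ^ 2)
            / (2 : ℝ) ^ n) := by
  refine ⟨49000, by norm_num, ?_⟩
  intro n f d hd hdeg δ hδ0 hδ1 σ hσ hσ0
  obtain ⟨B, hB⟩ : ∃ B : ℝ, B = ⨆ x : Fin n → ℤˣ, |f x| := ⟨_, rfl⟩
  rw [← hB]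
  have hle : ∀ x, |f x| ≤ B := fun x => by
    rw [hB]
    exact le_ciSup (f := fun x : Fin n → ℤˣ => |f x|) (Set.finite_range _).bddAbove x
  have hB0 : 0 < B := by
    by_contra hcon
    push Not at hcon
    have hz : ∀ x, f x = 0 := fun x => by
      have := hle x
      have h2 := abs_nonneg (f x)
      exact abs_eq_zero.1 (by linarith)
    have : σ = 0 := by
      rw [hσ]
      refine Finset.sum_eq_zero fun S _ => ?_
      simp [hz]
    linarith
  obtain ⟨j, hj⟩ := mainU hA1 hA3 hB3 hG hH hI n f d hd hdeg B hB0 hle δ hδ0 hδ1 σ hσ hσ0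
  set I : ℝ := (∑ x : Fin n → ℤˣ,
          ((f (Function.update x j 1) - f (Function.update x j (-1))) / 2) ^ 2)
            / (2 : ℝ) ^ n with hI'
  have hsup : Real.sqrt I ≤ ⨆ j : Fin n, Real.sqrt
          ((∑ x : Fin n → ℤˣ,
              ((f (Function.update x j 1) - f (Function.update x j (-1))) / 2) ^ 2)
            / (2 : ℝ) ^ n) :=
    le_ciSup (f := fun j : Fin n => Real.sqrt ((∑ x : Fin n → ℤˣ,
              ((f (Function.update x j 1) - f (Function.update x j (-1))) / 2) ^ 2)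
            / (2 : ℝ) ^ n)) (Set.finite_range _).bddAbove j
  refine le_trans ?_ hsup
  have hd1 : (1:ℝ) ≤ d := by exact_mod_cast hd
  have hq : 0 < σ / (4 * d * B ^ 2) := by positivity
  apply Real.le_sqrt_of_sq_le
  rw [mul_pow, ← Real.rpow_natCast ((σ / (4 * ↑d * B ^ 2)) ^ (49000 * Real.log (1 / δ))) 2,
    ← Real.rpow_mul hq.le]
  have e3 : 49000 * Real.log (1 / δ) * ((2 : ℕ) : ℝ) = 98000 * Real.log (1 / δ) := by
    push_cast; ring
  rw [e3]
  rw [le_div_iff₀ (by positivity)] at hj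
  linarith

end Pool.Agent.H889R3.SA
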